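import Pool.Agent.LibMM31.Cert2
import Pool.Agent.LibMM31.DomGraph

/-!
# Which cyclic conjugates of `w` are `1`: linear certificates

`CycRed w`: `w` is cyclically reduced. `EqOne w u`: the word `u` is `1` in the inverse monoid
`Inv⟨X | w = 1⟩`. `domSet w a` is an explicitly computed set of pairs of positions of `w` (the
overlap closure), and `WCert` is a finite system of linear inequalities for integer weights `P`,
`B` (indexed by pairs of germs of `w` and of the folded graph `gD w a`). The letter `a` is
irrelevant: it is the value of a total function outside its range.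
-/

namespace Pool.Agent.Results.MP_8e62af_al.LinearCertificate

open MM31

/-- If `w` is cyclically reduced and the finite system of linear inequalities `WCert` of `w` has a
solution `P`, `B`, `m`, then the cyclic conjugates of `w` which are `1` in `Inv⟨X | w = 1⟩` are
those which start at a position `j` with `(0, j) ∈ domSet w a`. -/
theorem result {X : Type} [DecidableEq X] (w : List (Lt X)) (a : Lt X) (hred : CycRed w)
    (P B : Gm X ℕ → Gm X ℕ → ℤ) (m : ℤ)
    (hP : WCert (gD w a) w.length (cw w a) (rp w a) P B m) (j : ℕ) (hj : j < w.length) :
    EqOne w (w.rotate j) ↔ (0, j) ∈ domSet w a := by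
  have hN : 0 < w.length := by omega
  rw [mem_domSet_iff hN hj]
  refine ⟨fun h => ?_, fun h => h.eqOne w hj.le⟩
  rcases Nat.lt_or_ge w.length 2 with h2 | h2
  · have : j = 0 := by omega
    subst this
    exact Dom.refl 0
  by_contra hd
  have hper : ∀ k, cw w a (k + w.length) = cw w a k := by
    intro k
    rw [← cw_mod w a (k + w.length), Nat.add_mod_right, cw_mod]
  have hcper : ∀ k, rp w a (k + w.length) = rp w a k := by
    intro k
    rw [← rp_mod w a (k + w.length), Nat.add_mod_right, rp_mod]
  refine not_eqOne_of_nodiag w a w.length 1 0 h2 one_pos (by omega) hper (gD w a) (rp w a) rfl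
    (gD_edge hN) ?_ j hj ?_ h
  · intro D i1 i2 M
    refine M.no_diagram_of_cert (cellIn_cw w a rfl (gD_edge hN) hcper) (P := P) (B := B) (m := m)
      ?_ one_pos
    have e1 : (fun k => cw w a (0 + k)) = cw w a := by funext k; rw [Nat.zero_add]
    have e2 : (fun k => rp w a (0 + k)) = rp w a := by funext k; rw [Nat.zero_add]
    rw [e1, e2]
    exact hP
  · intro h1
    exact hd ((rp_eq_iff hN hj).1 h1.symm).1

end Pool.Agent.Results.MP_8e62af_al.LinearCertificate
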