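import Pool.Agent.LibMM31.PowFinal

/-!
# The cyclic conjugates of a proper power which are `1`

`CycRed w`: `w` is cyclically reduced. `EqOne w u`: the word `u` is `1` in the inverse monoid
`Inv⟨X | w = 1⟩`. `Dom w i k`: position `i` of the cyclic word `w` dominates position `k`, an
inductively defined relation between the positions of `w`.
-/

namespace Pool.Agent.Results.MP_8e62af_al.ProperPowers

open MM31

/-- `w` is a proper power: `m ≥ 2` copies of a nonempty word `z`, one after the other. -/
def ProperPower {X : Type} (w : List (Lt X)) : Prop :=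
  ∃ (z : List (Lt X)) (m : ℕ), z ≠ [] ∧ 2 ≤ m ∧ w = (List.replicate m z).flatten

theorem ProperPower.rotate {X : Type} {w : List (Lt X)} (h : ProperPower w) :
    ∃ d, 0 < d ∧ d < w.length ∧ w.rotate d = w := by
  obtain ⟨z, m, hz, hm, rfl⟩ := h
  obtain ⟨k, rfl⟩ : ∃ k, m = k + 1 := ⟨m - 1, by omega⟩
  have hz0 : 0 < z.length := List.length_pos_iff.mpr hz
  refine ⟨z.length, hz0, ?_, ?_⟩
  · have h0 : ((List.replicate (k + 1) z).flatten).length = (k + 1) * z.length := by
      simp
    rw [h0]
    calc z.length < 2 * z.length := by omega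
      _ ≤ (k + 1) * z.length := Nat.mul_le_mul_right _ hm
  · have h1 : (List.replicate (k + 1) z).flatten = z ++ (List.replicate k z).flatten := by
      rw [List.replicate_succ, List.flatten_cons]
    have h2 : (List.replicate (k + 1) z).flatten = (List.replicate k z).flatten ++ z := by
      rw [List.replicate_succ', List.flatten_append, List.flatten_singleton]
    conv_lhs => rw [h1]
    rw [List.rotate_append_length_eq, h2]

/-- For every cyclically reduced proper power `w` the cyclic conjugate of `w` starting at the
position `j` is `1` in `Inv⟨X | w = 1⟩` if and only if the base `0` dominates `j`; and there is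
a primitive recursive function deciding this, uniformly in `w` and `j`. -/
theorem result :
    (∀ (X : Type) (w : List (Lt X)), CycRed w → ProperPower w → ∀ j < w.length,
      (EqOne w (w.rotate j) ↔ Dom w 0 j)) ∧
    (∃ f : List (Lt ℕ) × ℕ → Bool, Primrec f ∧
      ∀ w : List (Lt ℕ), CycRed w → ProperPower w → ∀ j < w.length,
        (f (w, j) = true ↔ EqOne w (w.rotate j))) := by
  have key : ∀ (X : Type) (w : List (Lt X)), CycRed w → ProperPower w → ∀ j < w.length,
      (EqOne w (w.rotate j) ↔ Dom w 0 j) := by
    intro X w hred hpow j hj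
    obtain ⟨d, hd0, hd, hrot⟩ := hpow.rotate
    exact eqOne_iff_dom_of_power w hred d hd0 hd hrot j hj
  refine ⟨key, ?_⟩
  obtain ⟨hdec, hprim⟩ := primrec_dom
  refine ⟨_, hprim, fun w hred hpow j hj => ?_⟩
  rw [key ℕ w hred hpow j hj, decide_eq_true_iff]
  exact ⟨fun h => h.2, fun h => ⟨hj, h⟩⟩

end Pool.Agent.Results.MP_8e62af_al.ProperPowers
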