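import Pool.Agent.LibTwo26.Main

/-!
# The cyclic conjugates which are `1`, for words in which a letter occurs once or twice

`CycRed w`: `w` is cyclically reduced. `EqOne w u`: the word `u` is `1` in the inverse monoid
`Inv⟨X | w = 1⟩`. `Dom w i k`: position `i` of the cyclic word `w` dominates position `k`, an
inductively defined relation between the positions of `w`.
-/

namespace Pool.Agent.Results.MP_8e62af_al.TwoOccurrences

open MM31

/-- Some letter `z` of the alphabet occurs in `w` (as `z` or as `z⁻¹`) exactly once or exactly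
twice: at the positions `k₁` and `k₂` (which may be equal) and nowhere else. -/
def LetterOnceOrTwice {X : Type} (w : List (Lt X)) : Prop :=
  ∃ (z : X) (k₁ k₂ : ℕ), (∃ b : Bool, w[k₁]? = some (z, b)) ∧
    (∃ b : Bool, w[k₂]? = some (z, b)) ∧
    ∀ (k : ℕ) (b : Bool), w[k]? = some (z, b) → k = k₁ ∨ k = k₂

/-- For every cyclically reduced word `w` in which some letter occurs exactly once or exactly
twice the cyclic conjugate of `w` starting at the position `j` is `1` in `Inv⟨X | w = 1⟩` if and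
only if the base `0` dominates `j`; and there is a primitive recursive function deciding this,
uniformly in `w` and `j`. -/
theorem result :
    (∀ (X : Type) (w : List (Lt X)), CycRed w → LetterOnceOrTwice w → ∀ j < w.length,
      (EqOne w (w.rotate j) ↔ Dom w 0 j)) ∧
    (∃ f : List (Lt ℕ) × ℕ → Bool, Primrec f ∧
      ∀ w : List (Lt ℕ), CycRed w → LetterOnceOrTwice w → ∀ j < w.length,
        (f (w, j) = true ↔ EqOne w (w.rotate j))) := by
  have key0 : ∀ (X : Type) (w : List (Lt X)) (z : X) (k₁ k₂ : ℕ) (b₁ b₂ : Bool), CycRed w →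
      w[k₁]? = some (z, b₁) → w[k₂]? = some (z, b₂) →
      (∀ (k : ℕ) (b : Bool), w[k]? = some (z, b) → k = k₁ ∨ k = k₂) → k₁ < k₂ →
      ∀ j < w.length, EqOne w (w.rotate j) → Dom w 0 j := by
    intro X w z k₁ k₂ b₁ b₂ hred h1 h2 h3 hlt j hj h
    obtain ⟨hk₂, _⟩ := List.getElem?_eq_some_iff.1 h2
    have honly : ∀ (k : ℕ) (x : Lt X), w[k]? = some x → x.1 = z → k = k₁ ∨ k = k₂ := by
      rintro k ⟨y, b⟩ h4 h5
      have h6 : y = z := h5
      subst h6
      exact h3 k b h4
    rcases Bool.eq_or_eq_not b₂ b₁ with rfl | rfl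
    · have S : Two26.Setup w z k₁ k₂ (z, b₂) true :=
        ⟨hred, hlt, hk₂, h1, h2, rfl, honly⟩
      exact S.final j hj h
    · have S : Two26.Setup w z k₁ k₂ (z, b₁) false :=
        ⟨hred, hlt, hk₂, h1, h2, rfl, honly⟩
      exact S.final j hj h
  have key : ∀ (X : Type) (w : List (Lt X)), CycRed w → LetterOnceOrTwice w → ∀ j < w.length,
      (EqOne w (w.rotate j) ↔ Dom w 0 j) := by
    intro X w hred hw j hj
    refine ⟨fun h => ?_, fun h => h.eqOne w hj.le⟩
    obtain ⟨z, k₁, k₂, ⟨b₁, h1⟩, ⟨b₂, h2⟩, h3⟩ := hw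
    rcases lt_trichotomy k₁ k₂ with hlt | rfl | hlt
    · exact key0 X w z k₁ k₂ b₁ b₂ hred h1 h2 h3 hlt j hj h
    · obtain ⟨hk, _⟩ := List.getElem?_eq_some_iff.1 h1
      refine Two26.once (z := z) hk h1 rfl ?_ j hj h
      rintro i ⟨y, b⟩ h4 h5
      have h6 : y = z := h5
      subst h6
      rcases h3 i b h4 with h7 | h7 <;> exact h7
    · exact key0 X w z k₂ k₁ b₂ b₁ hred h2 h1 (fun k b h4 => (h3 k b h4).symm) hlt j hj h
  refine ⟨key, ?_⟩
  obtain ⟨hdec, hprim⟩ := primrec_dom
  refine ⟨_, hprim, fun w hred hw j hj => ?_⟩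
  rw [key ℕ w hred hw j hj, decide_eq_true_iff]
  exact ⟨fun h => h.2, fun h => ⟨hj, h⟩⟩

end Pool.Agent.Results.MP_8e62af_al.TwoOccurrences
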